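import Pool.Agent.H592.TD.Stm

/-!
# TD project (helper592), statement S4 (helper21)
-/

set_option autoImplicit false

open Finset Filter Topology

namespace Pool.Agent.H21.TD

open Pool.Agent.H592.TD
open Pool.Agent.H329R2.AD (dk ram Pr SS)

/-! ### harmonic sums over progressions -/

/-- the sum over the class of `r` below `N` -/
noncomputable def hs (e r N : ℕ) : ℝ := ∑ u ∈ range N, if u % e = r then 1 / (u : ℝ) else 0

lemma hs_mono (e r : ℕ) {M N : ℕ} (h : M ≤ N) : hs e r M ≤ hs e r N := by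
  refine sum_le_sum_of_subset_of_nonneg (range_mono h) fun i _ _ => ?_
  split_ifs
  · positivity
  · exact le_rfl

lemma hs_block (e r : ℕ) (hr : r < e) (K : ℕ) :
    hs e r (K * e) = ∑ k ∈ range K, 1 / ((k : ℝ) * e + r) := by
  induction K with
  | zero => simp [hs]
  | succ K ih =>
    rw [sum_range_succ, ← ih, hs, hs, Nat.succ_mul, Finset.sum_range_add]
    congr 1
    rw [Finset.sum_eq_single r]
    · rw [if_pos]
      · push_cast
        ring
      · rw [Nat.mul_add_mod', Nat.mod_eq_of_lt hr]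
    · intro j hj hne
      rw [if_neg]
      rw [Nat.mul_add_mod', Nat.mod_eq_of_lt (mem_range.1 hj)]
      exact hne
    · intro h
      exact absurd (mem_range.2 hr) h

/-- real harmonic numbers -/
lemma harm_eq (K : ℕ) : ((harmonic K : ℚ) : ℝ) = ∑ k ∈ range K, 1 / ((k : ℝ) + 1) := by
  rw [harmonic]
  push_cast
  refine sum_congr rfl fun k _ => ?_
  rw [one_div]

lemma block_upper (e r : ℕ) (he : 1 ≤ e) (K : ℕ) :
    ∑ k ∈ range K, 1 / ((k : ℝ) * e + r) ≤ 1 + (1 / (e : ℝ)) * (1 + Real.log (K + 1)) := by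
  have he0 : (0 : ℝ) < e := by exact_mod_cast he
  have h0 : (0 : ℝ) ≤ Real.log (K + 1) := Real.log_nonneg (by linarith [(Nat.cast_nonneg K : (0:ℝ) ≤ K)])
  cases K with
  | zero =>
    rw [sum_range_zero]
    positivity
  | succ K =>
    rw [sum_range_succ']
    have h1 : (1 : ℝ) / (((0 : ℕ) : ℝ) * e + r) ≤ 1 := by
      rw [Nat.cast_zero, zero_mul, zero_add]
      rcases Nat.eq_zero_or_pos r with rfl | hr
      · simp
      · rw [div_le_one (by exact_mod_cast hr)]
        exact_mod_cast hr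
    have h2 : ∑ k ∈ range K, 1 / (((k + 1 : ℕ) : ℝ) * e + r) ≤
        (1 / (e : ℝ)) * ∑ k ∈ range K, 1 / ((k : ℝ) + 1) := by
      rw [mul_sum]
      refine sum_le_sum fun k _ => ?_
      rw [one_div_mul_one_div_rev]
      push_cast
      refine one_div_le_one_div_of_le (by positivity) ?_
      have : (0 : ℝ) ≤ r := Nat.cast_nonneg r
      linarith
    rw [← harm_eq] at h2
    have h3 := harmonic_le_one_add_log K
    have h4 : Real.log K ≤ Real.log ((K + 1 : ℕ) + 1) := by
      rcases Nat.eq_zero_or_pos K with rfl | hK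
      · simp
        positivity
      · apply Real.log_le_log (by exact_mod_cast hK)
        push_cast
        linarith
    have h5 : (1 / (e : ℝ)) * ((harmonic K : ℚ) : ℝ) ≤
        (1 / (e : ℝ)) * (1 + Real.log ((K + 1 : ℕ) + 1)) :=
      mul_le_mul_of_nonneg_left (by linarith) (by positivity)
    linarith

lemma block_lower (e r : ℕ) (he : 1 ≤ e) (hr : r < e) (K : ℕ) :
    (1 / (e : ℝ)) * (Real.log (K + 1) - 1) ≤ ∑ k ∈ range K, 1 / ((k : ℝ) * e + r) := by
  have he0 : (0 : ℝ) < e := by exact_mod_cast he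
  have hr0 : (0 : ℝ) ≤ r := Nat.cast_nonneg r
  have hre : (r : ℝ) ≤ e := by exact_mod_cast hr.le
  have h1 : (1 / (e : ℝ)) * (∑ k ∈ range K, 1 / ((k : ℝ) + 1) - 1) ≤
      ∑ k ∈ range K, 1 / ((k : ℝ) * e + r) := by
    cases K with
    | zero =>
      rw [sum_range_zero, sum_range_zero]
      have : 0 ≤ 1 / (e : ℝ) := by positivity
      linarith
    | succ K =>
      rw [sum_range_succ', sum_range_succ' (fun k : ℕ => 1 / ((k : ℝ) * e + r))]
      have h2 : (0 : ℝ) ≤ 1 / (((0 : ℕ) : ℝ) * e + r) := by positivity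
      have h3 : (1 / (e : ℝ)) * ∑ k ∈ range K, 1 / (((k + 1 : ℕ) : ℝ) + 1) ≤
          ∑ k ∈ range K, 1 / (((k + 1 : ℕ) : ℝ) * e + r) := by
        rw [mul_sum]
        refine sum_le_sum fun k _ => ?_
        rw [one_div_mul_one_div_rev]
        refine one_div_le_one_div_of_le (by positivity) ?_
        push_cast
        linarith
      have h4 : ∑ k ∈ range K, 1 / (((k + 1 : ℕ) : ℝ) + 1) + 1 / (((0 : ℕ) : ℝ) + 1) - 1 =
          ∑ k ∈ range K, 1 / (((k + 1 : ℕ) : ℝ) + 1) := by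
        simp
      rw [h4]
      linarith
  refine le_trans ?_ h1
  refine mul_le_mul_of_nonneg_left ?_ (by positivity)
  have h2 := log_add_one_le_harmonic K
  rw [harm_eq] at h2
  push_cast at h2
  linarith

lemma hs_bounds (e r : ℕ) (he : 1 ≤ e) (hr : r < e) (N : ℕ) (hN : 1 ≤ N) :
    |hs e r (N + 1) - 1 / (e : ℝ) * Real.log N| ≤ 4 + Real.log e := by
  have he0 : (0 : ℝ) < e := by exact_mod_cast he
  have he1 : (1 : ℝ) ≤ e := by exact_mod_cast he
  have hN1 : (1 : ℝ) ≤ N := by exact_mod_cast hN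
  have hloge : 0 ≤ Real.log e := Real.log_nonneg he1
  have hlogN : 0 ≤ Real.log N := Real.log_nonneg hN1
  have hinv : 1 / (e : ℝ) ≤ 1 := by rw [div_le_one he0]; exact he1
  have hinv0 : 0 < 1 / (e : ℝ) := by positivity
  have hdm := Nat.div_add_mod N e
  have hmod := Nat.mod_lt N he
  have hlow : hs e r (N / e * e) ≤ hs e r (N + 1) := hs_mono e r (by
    have := Nat.div_mul_le_self N e
    omega)
  have hup : hs e r (N + 1) ≤ hs e r ((N / e + 1) * e) := hs_mono e r (by
    have h1 : (N / e + 1) * e = e * (N / e) + e := by ring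
    rw [h1]
    omega)
  rw [hs_block e r hr] at hlow hup
  have h1 := (block_lower e r he hr (N / e)).trans hlow
  have h2 := hup.trans (block_upper e r he (N / e + 1))
  have h3 : Real.log N - Real.log e ≤ Real.log (((N / e : ℕ) : ℝ) + 1) := by
    rw [← Real.log_div (by positivity) he0.ne']
    refine Real.log_le_log (by positivity) ?_
    rw [div_le_iff₀ he0]
    have h4 : N ≤ (N / e + 1) * e := by
      have h1 : (N / e + 1) * e = e * (N / e) + e := by ring
      rw [h1]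
      omega
    exact_mod_cast h4
  have h5 : Real.log ((((N / e + 1 : ℕ) : ℝ)) + 1) ≤ Real.log N + 2 := by
    have h6 : (((N / e + 1 : ℕ) : ℝ)) + 1 ≤ N * 3 := by
      have h7 : N / e ≤ N := Nat.div_le_self _ _
      have h8 : ((N / e : ℕ) : ℝ) ≤ N := by exact_mod_cast h7
      push_cast
      linarith
    have h9 : Real.log (N * 3) ≤ Real.log N + 2 := by
      rw [Real.log_mul (by positivity) (by norm_num)]
      have : Real.log 3 ≤ 3 - 1 := Real.log_le_sub_one_of_pos (by norm_num)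
      linarith
    exact (Real.log_le_log (by positivity) h6).trans h9
  rw [abs_le]
  constructor
  · have h6 : 1 / (e : ℝ) * (Real.log N - Real.log e - 1) ≤
        1 / (e : ℝ) * (Real.log (((N / e : ℕ) : ℝ) + 1) - 1) :=
      mul_le_mul_of_nonneg_left (by linarith) hinv0.le
    have h7 : 1 / (e : ℝ) * (Real.log e + 1) ≤ Real.log e + 1 := by
      nlinarith
    nlinarith
  · have h6 : 1 / (e : ℝ) * (1 + Real.log ((((N / e + 1 : ℕ) : ℝ)) + 1)) ≤
        1 / (e : ℝ) * (1 + (Real.log N + 2)) :=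
      mul_le_mul_of_nonneg_left (by linarith) hinv0.le
    nlinarith

/-! ### one class -/

/-- the sum over the class of `r` in `In X α β` -/
noncomputable def Ar (X α β : ℝ) (e r : ℕ) : ℝ :=
  ∑ u ∈ In X α β, if u % e = r then 1 / (u : ℝ) else 0

lemma floor_log {y : ℝ} (hy : 1 ≤ y) :
    1 ≤ ⌊y⌋₊ ∧ |Real.log (⌊y⌋₊ : ℝ) - Real.log y| ≤ 1 := by
  have h1 : 1 ≤ ⌊y⌋₊ := Nat.one_le_floor_iff y |>.2 hy
  have h1' : (1 : ℝ) ≤ ⌊y⌋₊ := by exact_mod_cast h1
  refine ⟨h1, ?_⟩
  have h2 : (⌊y⌋₊ : ℝ) ≤ y := Nat.floor_le (by linarith)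
  have h3 : y < ⌊y⌋₊ + 1 := Nat.lt_floor_add_one y
  have h4 : Real.log (⌊y⌋₊ : ℝ) ≤ Real.log y := Real.log_le_log (by linarith) h2
  have h5 : Real.log y ≤ Real.log 2 + Real.log (⌊y⌋₊ : ℝ) := by
    rw [← Real.log_mul (by norm_num) (by positivity)]
    exact Real.log_le_log (by linarith) (by linarith)
  have h6 : Real.log 2 ≤ 2 - 1 := Real.log_le_sub_one_of_pos (by norm_num)
  rw [abs_le]
  constructor <;> linarith

lemma Ar_bound (X α β : ℝ) (e r : ℕ) (he : 1 ≤ e) (hr : r < e) (hX : 1 ≤ X) (hα : 0 < α)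
    (hαβ : α < β) :
    |Ar X α β e r - (β - α) / e * Real.log X| ≤ 10 + 2 * Real.log e := by
  have he1 : (1 : ℝ) ≤ e := by exact_mod_cast he
  have he0 : (0 : ℝ) < e := by linarith
  have hXα : 1 ≤ X ^ α := Real.one_le_rpow hX hα.le
  have hXβ : 1 ≤ X ^ β := Real.one_le_rpow hX (by linarith)
  obtain ⟨hM, hM2⟩ := floor_log hXα
  obtain ⟨hN, hN2⟩ := floor_log hXβ
  have hMN : ⌊X ^ α⌋₊ ≤ ⌊X ^ β⌋₊ :=
    Nat.floor_le_floor (Real.rpow_le_rpow_of_exponent_le hX hαβ.le)
  rw [Real.log_rpow (by linarith)] at hM2 hN2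
  set M := ⌊X ^ α⌋₊
  set N := ⌊X ^ β⌋₊
  have hA : Ar X α β e r = hs e r (N + 1) - hs e r (M + 1) := by
    rw [Ar, hs, hs, ← Finset.sum_Ico_eq_sub _ (by omega : M + 1 ≤ N + 1)]
    refine sum_congr ?_ fun _ _ => rfl
    ext u
    simp only [In, mem_Ioc, mem_Ico]
    omega
  have h1 := hs_bounds e r he hr M hM
  have h2 := hs_bounds e r he hr N hN
  have hinv0 : 0 < 1 / (e : ℝ) := by positivity
  have hinv : 1 / (e : ℝ) ≤ 1 := by rw [div_le_one he0]; exact he1
  have h3 : |1 / (e : ℝ) * (Real.log M - α * Real.log X)| ≤ 1 := by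
    rw [abs_mul, abs_of_pos hinv0]
    exact mul_le_one₀ hinv (abs_nonneg _) hM2
  have h4 : |1 / (e : ℝ) * (Real.log N - β * Real.log X)| ≤ 1 := by
    rw [abs_mul, abs_of_pos hinv0]
    exact mul_le_one₀ hinv (abs_nonneg _) hN2
  have h5 : Ar X α β e r - (β - α) / e * Real.log X =
      (hs e r (N + 1) - 1 / (e : ℝ) * Real.log N) - (hs e r (M + 1) - 1 / (e : ℝ) * Real.log M) +
      1 / (e : ℝ) * (Real.log N - β * Real.log X) -
      1 / (e : ℝ) * (Real.log M - α * Real.log X) := by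
    rw [hA]
    ring
  rw [h5]
  rw [abs_le] at h1 h2 h3 h4 ⊢
  constructor <;> linarith [h1.1, h1.2, h2.1, h2.2, h3.1, h3.2, h4.1, h4.2]

lemma Ar_lim (α β : ℝ) (e r : ℕ) (he : 1 ≤ e) (hr : r < e) (hα : 0 < α) (hαβ : α < β) :
    Tendsto (fun X : ℝ => Ar X α β e r / Real.log X) atTop (𝓝 ((β - α) / e)) := by
  rw [tendsto_iff_norm_sub_tendsto_zero]
  have h0 : Tendsto (fun X : ℝ => (10 + 2 * Real.log e) / Real.log X) atTop (𝓝 0) :=
    tendsto_const_nhds.div_atTop Real.tendsto_log_atTop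
  refine squeeze_zero' (Filter.Eventually.of_forall fun X => norm_nonneg _) ?_ h0
  filter_upwards [eventually_gt_atTop (1 : ℝ)] with X hX
  have hL : 0 < Real.log X := Real.log_pos hX
  have h1 := Ar_bound X α β e r he hr hX.le hα hαβ
  have h2 : Ar X α β e r / Real.log X - (β - α) / e =
      (Ar X α β e r - (β - α) / e * Real.log X) / Real.log X := by
    field_simp
  rw [h2, norm_div, Real.norm_eq_abs, Real.norm_eq_abs, abs_of_pos hL]
  exact div_le_div_of_nonneg_right h1 hL.le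

/-! ### two variables -/

lemma dvd_mod (e u v : ℕ) : e ∣ u * v ↔ e ∣ (u % e) * (v % e) := by
  rw [Nat.dvd_iff_mod_eq_zero, Nat.dvd_iff_mod_eq_zero, Nat.mul_mod]

lemma W2_eq (X γ₁ γ₂ δ₁ δ₂ : ℝ) (e : ℕ) (he : 1 ≤ e) :
    W2 X γ₁ γ₂ δ₁ δ₂ e = ∑ r ∈ range e, ∑ s ∈ range e,
      if e ∣ r * s then Ar X γ₁ γ₂ e r * Ar X δ₁ δ₂ e s else 0 := by
  have h1 : ∀ u v : ℕ, (if e ∣ u * v then 1 / ((u : ℝ) * v) else 0) =
      ∑ r ∈ range e, ∑ s ∈ range e, if e ∣ r * s then
        (if u % e = r then 1 / (u : ℝ) else 0) * (if v % e = s then 1 / (v : ℝ) else 0) else 0 := by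
    intro u v
    rw [Finset.sum_eq_single (u % e), Finset.sum_eq_single (v % e)]
    · rw [if_pos rfl, if_pos rfl]
      have h2 : (1 : ℝ) / (u * v) = 1 / u * (1 / v) := by
        rw [one_div_mul_one_div]
      by_cases h : e ∣ u * v
      · rw [if_pos h, if_pos ((dvd_mod e u v).1 h), h2]
      · rw [if_neg h, if_neg (fun h' => h ((dvd_mod e u v).2 h'))]
    · intro s _ hs
      rw [if_neg (Ne.symm hs), mul_zero, ite_self]
    · intro h
      exact absurd (mem_range.2 (Nat.mod_lt v he)) h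
    · intro r _ hr
      refine Finset.sum_eq_zero fun s _ => ?_
      rw [if_neg (Ne.symm hr), zero_mul, ite_self]
    · intro h
      exact absurd (mem_range.2 (Nat.mod_lt u he)) h
  rw [W2]
  simp only [h1]
  rw [Finset.sum_congr rfl fun u _ => Finset.sum_comm, Finset.sum_comm]
  refine sum_congr rfl fun r _ => ?_
  rw [Finset.sum_congr rfl fun u _ => Finset.sum_comm, Finset.sum_comm]
  refine sum_congr rfl fun s _ => ?_
  by_cases h : e ∣ r * s
  · simp only [if_pos h]
    rw [Ar, Ar, Finset.sum_mul_sum]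
  · simp only [if_neg h, Finset.sum_const_zero]

lemma Pr_two (e : ℕ) : Pr 2 e = ∑ r ∈ range e, ∑ s ∈ range e,
    if e ∣ r * s then 1 / (e : ℝ) * (1 / (e : ℝ)) else 0 := by
  have h1 : ((Fintype.piFinset (fun _ : Fin 2 => range e)).filter
      (fun v => e ∣ ∏ i, v i)).card = ((range e ×ˢ range e).filter
      (fun p : ℕ × ℕ => e ∣ p.1 * p.2)).card := by
    refine Finset.card_nbij' (fun v => (v 0, v 1)) (fun p => ![p.1, p.2]) ?_ ?_ ?_ ?_
    · intro v hv
      simp only [Finset.coe_filter, Set.mem_ofPred_eq, Fintype.mem_piFinset,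
        Fin.prod_univ_two] at hv
      simp only [Finset.coe_filter, Set.mem_ofPred_eq, mem_product]
      exact ⟨⟨hv.1 0, hv.1 1⟩, hv.2⟩
    · intro p hp
      simp only [Finset.coe_filter, Set.mem_ofPred_eq, mem_product] at hp
      simp only [Finset.coe_filter, Set.mem_ofPred_eq, Fintype.mem_piFinset,
        Fin.prod_univ_two]
      refine ⟨fun i => ?_, hp.2⟩
      fin_cases i
      · exact hp.1.1
      · exact hp.1.2
    · intro v _
      funext i
      fin_cases i <;> rfl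
    · intro p _
      rfl
  rw [Pr, h1, Finset.card_filter, Finset.sum_product]
  push_cast
  rw [Finset.sum_div]
  refine sum_congr rfl fun r _ => ?_
  rw [Finset.sum_div]
  refine sum_congr rfl fun s _ => ?_
  split_ifs
  · rw [one_div_mul_one_div, sq]
  · rw [zero_div]

/-! ### the bound -/

lemma mult_sum (X γ₁ γ₂ : ℝ) (d : ℕ) (hd : 1 ≤ d) (hX : 1 ≤ X) (hγ : 0 < γ₂) :
    ∑ u ∈ In X γ₁ γ₂, (if d ∣ u then 1 / (u : ℝ) else 0) ≤ 1 / (d : ℝ) * (1 + γ₂ * Real.log X) := by
  have hd0 : (0 : ℝ) < d := by exact_mod_cast hd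
  have hXβ : 1 ≤ X ^ γ₂ := Real.one_le_rpow hX hγ.le
  have hN1 : 1 ≤ ⌊X ^ γ₂⌋₊ := (floor_log hXβ).1
  have hN2 : ((⌊X ^ γ₂⌋₊ : ℕ) : ℝ) ≤ X ^ γ₂ := Nat.floor_le (by linarith)
  set N := ⌊X ^ γ₂⌋₊ with hN
  have hN1' : (1 : ℝ) ≤ N := by exact_mod_cast hN1
  have hdm := Nat.div_add_mod N d
  have hmod := Nat.mod_lt N hd
  have h1 : ∑ u ∈ In X γ₁ γ₂, (if d ∣ u then 1 / (u : ℝ) else 0) ≤ hs d 0 ((N / d + 1) * d) := by
    rw [hs]
    have h2 : ∀ u ∈ In X γ₁ γ₂, (if d ∣ u then 1 / (u : ℝ) else 0) =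
        if u % d = 0 then 1 / (u : ℝ) else 0 := by
      intro u _
      simp only [Nat.dvd_iff_mod_eq_zero]
    rw [Finset.sum_congr rfl h2]
    refine Finset.sum_le_sum_of_subset_of_nonneg ?_ fun i _ _ => ?_
    · intro u hu
      rw [In, mem_Ioc] at hu
      rw [mem_range]
      have h3 : (N / d + 1) * d = d * (N / d) + d := by ring
      rw [h3]
      have := hu.2
      omega
    · split_ifs
      · positivity
      · exact le_rfl
  rw [hs_block d 0 hd, sum_range_succ'] at h1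
  have h2 : ∑ k ∈ range (N / d), 1 / (((k + 1 : ℕ) : ℝ) * d + ((0 : ℕ) : ℝ)) =
      1 / (d : ℝ) * ((harmonic (N / d) : ℚ) : ℝ) := by
    rw [harm_eq, mul_sum]
    refine sum_congr rfl fun k _ => ?_
    rw [one_div_mul_one_div_rev]
    push_cast
    rw [add_zero]
  rw [h2] at h1
  have h3 : (1 : ℝ) / (((0 : ℕ) : ℝ) * d + ((0 : ℕ) : ℝ)) = 0 := by simp
  rw [h3, add_zero] at h1
  refine h1.trans (mul_le_mul_of_nonneg_left ?_ (by positivity))
  refine (harmonic_le_one_add_log (N / d)).trans ?_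
  have h4 : Real.log ((N / d : ℕ) : ℝ) ≤ Real.log N := by
    rcases Nat.eq_zero_or_pos (N / d) with h | h
    · rw [h, Nat.cast_zero, Real.log_zero]
      exact Real.log_nonneg hN1'
    · refine Real.log_le_log (by exact_mod_cast h) ?_
      exact_mod_cast Nat.div_le_self N d
  have h5 : Real.log N ≤ γ₂ * Real.log X := by
    rw [← Real.log_rpow (by linarith)]
    exact Real.log_le_log (by linarith) hN2
  linarith

lemma dvd_split (e u v : ℕ) (he : 1 ≤ e) :
    (if e ∣ u * v then 1 / ((u : ℝ) * v) else 0) ≤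
      ∑ d ∈ e.divisors, (if d ∣ u then 1 / (u : ℝ) else 0) *
        (if e / d ∣ v then 1 / (v : ℝ) else 0) := by
  have hnn : ∀ d ∈ e.divisors, 0 ≤ (if d ∣ u then 1 / (u : ℝ) else 0) *
        (if e / d ∣ v then 1 / (v : ℝ) else 0) := by
    intro d _
    refine mul_nonneg ?_ ?_
    · split_ifs
      · positivity
      · exact le_rfl
    · split_ifs
      · positivity
      · exact le_rfl
  by_cases h : e ∣ u * v
  · rw [if_pos h]
    have hg : Nat.gcd u e ∈ e.divisors := by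
      rw [Nat.mem_divisors]
      exact ⟨Nat.gcd_dvd_right u e, by omega⟩
    refine le_trans ?_ (Finset.single_le_sum hnn hg)
    have h1 : e / Nat.gcd u e ∣ v := by
      have hg0 : 0 < Nat.gcd u e := Nat.gcd_pos_of_pos_right u he
      have h2 : e / Nat.gcd u e ∣ (u / Nat.gcd u e) * v := by
        have h3 : u / Nat.gcd u e * v = u * v / Nat.gcd u e :=
          (Nat.div_mul_right_comm (Nat.gcd_dvd_left u e) v)
        rw [h3]
        exact Nat.div_dvd_div (Nat.gcd_dvd_right u e) h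
      have h4 : Nat.Coprime (e / Nat.gcd u e) (u / Nat.gcd u e) :=
        (Nat.coprime_div_gcd_div_gcd hg0).symm
      exact h4.dvd_of_dvd_mul_left h2
    rw [if_pos (Nat.gcd_dvd_left u e), if_pos h1, one_div_mul_one_div]
  · rw [if_neg h]
    exact Finset.sum_nonneg hnn

theorem s4 : Pool.Agent.H592.TD.S4 := by
  intro γ₁ γ₂ δ₁ δ₂ h1 h2 h3 h4
  refine ⟨?_, (2 + γ₂) * (2 + δ₂), mul_nonneg (by linarith) (by linarith), ?_⟩
  · intro e he
    have hlim : Tendsto (fun X : ℝ => ∑ r ∈ range e, ∑ s ∈ range e, if e ∣ r * s then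
        (Ar X γ₁ γ₂ e r / Real.log X) * (Ar X δ₁ δ₂ e s / Real.log X) else 0) atTop
        (𝓝 (∑ r ∈ range e, ∑ s ∈ range e, if e ∣ r * s then
          ((γ₂ - γ₁) / e) * ((δ₂ - δ₁) / e) else 0)) := by
      refine tendsto_finsetSum _ fun r hr => tendsto_finsetSum _ fun s hs => ?_
      by_cases h : e ∣ r * s
      · simp only [if_pos h]
        exact (Ar_lim γ₁ γ₂ e r he (mem_range.1 hr) h1 h2).mul
          (Ar_lim δ₁ δ₂ e s he (mem_range.1 hs) h3 h4)
      · simp only [if_neg h]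
        exact tendsto_const_nhds
    have hval : (∑ r ∈ range e, ∑ s ∈ range e, if e ∣ r * s then
          ((γ₂ - γ₁) / e) * ((δ₂ - δ₁) / e) else 0) =
        (γ₂ - γ₁) * (δ₂ - δ₁) * Pr 2 e := by
      rw [Pr_two, mul_sum]
      refine sum_congr rfl fun r _ => ?_
      rw [mul_sum]
      refine sum_congr rfl fun s _ => ?_
      split_ifs
      · ring
      · rw [mul_zero]
    rw [← hval]
    refine hlim.congr fun X => ?_
    rw [W2_eq X γ₁ γ₂ δ₁ δ₂ e he, Finset.sum_div]
    refine sum_congr rfl fun r _ => ?_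
    rw [Finset.sum_div]
    refine sum_congr rfl fun s _ => ?_
    split_ifs
    · rw [div_mul_div_comm, sq]
    · rw [zero_div]
  · intro X hX e he
    have he0 : (0 : ℝ) < e := by exact_mod_cast he
    have hX1 : 1 ≤ X := by linarith
    have hL : 1 / 2 ≤ Real.log X := by
      have h5 : Real.log 2 ≤ Real.log X := Real.log_le_log (by norm_num) hX
      have := Real.log_two_gt_d9
      linarith
    have hb : W2 X γ₁ γ₂ δ₁ δ₂ e ≤ ∑ d ∈ e.divisors,
        (∑ u ∈ In X γ₁ γ₂, (if d ∣ u then 1 / (u : ℝ) else 0)) *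
          (∑ v ∈ In X δ₁ δ₂, (if e / d ∣ v then 1 / (v : ℝ) else 0)) := by
      rw [W2]
      refine (Finset.sum_le_sum fun u _ => Finset.sum_le_sum fun v _ =>
        dvd_split e u v he).trans (le_of_eq ?_)
      rw [Finset.sum_congr rfl fun u _ => Finset.sum_comm, Finset.sum_comm]
      refine sum_congr rfl fun d _ => ?_
      rw [Finset.sum_mul_sum]
    refine hb.trans ?_
    have hterm : ∀ d ∈ e.divisors,
        (∑ u ∈ In X γ₁ γ₂, (if d ∣ u then 1 / (u : ℝ) else 0)) *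
          (∑ v ∈ In X δ₁ δ₂, (if e / d ∣ v then 1 / (v : ℝ) else 0)) ≤
        1 / (e : ℝ) * ((1 + γ₂ * Real.log X) * (1 + δ₂ * Real.log X)) := by
      intro d hd
      rw [Nat.mem_divisors] at hd
      have hd1 : 1 ≤ d := Nat.pos_of_dvd_of_pos hd.1 he
      have hed : 1 ≤ e / d := Nat.div_pos (Nat.le_of_dvd he hd.1) hd1
      have k1 := mult_sum X γ₁ γ₂ d hd1 hX1 (by linarith)
      have k2 := mult_sum X δ₁ δ₂ (e / d) hed hX1 (by linarith)
      have k3 : (0 : ℝ) ≤ ∑ v ∈ In X δ₁ δ₂, (if e / d ∣ v then 1 / (v : ℝ) else 0) := by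
        refine Finset.sum_nonneg fun v _ => ?_
        split_ifs
        · positivity
        · exact le_rfl
      have k4 : (0 : ℝ) ≤ 1 / (d : ℝ) * (1 + γ₂ * Real.log X) := by
        have : 0 ≤ γ₂ * Real.log X := mul_nonneg (by linarith) (by linarith)
        positivity
      refine (mul_le_mul k1 k2 k3 k4).trans (le_of_eq ?_)
      have k5 : ((e / d : ℕ) : ℝ) * d = e := by
        have := Nat.div_mul_cancel hd.1
        exact_mod_cast this
      have k6 : (1 : ℝ) / e = 1 / d * (1 / ((e / d : ℕ) : ℝ)) := by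
        rw [one_div_mul_one_div_rev, k5]
      rw [k6]
      ring
    refine (Finset.sum_le_sum hterm).trans ?_
    rw [Finset.sum_const, nsmul_eq_mul]
    have k7 : 1 + γ₂ * Real.log X ≤ (2 + γ₂) * Real.log X := by linarith
    have k8 : 1 + δ₂ * Real.log X ≤ (2 + δ₂) * Real.log X := by linarith
    have k9 : 0 ≤ 1 + δ₂ * Real.log X := by
      have : 0 ≤ δ₂ * Real.log X := mul_nonneg (by linarith) (by linarith)
      linarith
    have k10 : 0 ≤ (2 + γ₂) * Real.log X := mul_nonneg (by linarith) (by linarith)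
    have k11 := mul_le_mul k7 k8 k9 k10
    calc (e.divisors.card : ℝ) * (1 / (e : ℝ) * ((1 + γ₂ * Real.log X) * (1 + δ₂ * Real.log X)))
        ≤ (e.divisors.card : ℝ) * (1 / (e : ℝ) * ((2 + γ₂) * Real.log X * ((2 + δ₂) * Real.log X))) := by
          gcongr
      _ = (2 + γ₂) * (2 + δ₂) * ((e.divisors.card : ℝ) / e) * Real.log X ^ 2 := by ring

end Pool.Agent.H21.TD
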